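import Pool.Agent.TH668.Bil.Plain

set_option autoImplicit false

/-!
# Products of two arbitrary sets meet record prime gaps

Let `α` be a real number with `|q α - p| ≥ c q ^ (-μ)` for all integers `q ≥ 1` and `p` (`μ = 1` for
quadratic irrationals and all badly approximable numbers, every `μ > 1` for irrational algebraic and
for almost all real numbers). Let `A`, `B` be ARBITRARY sets of natural numbers up to `N` with
`|A| |B| ≥ N ^ (2 - 1/μ + ε)`, and let `f`, `g` be ARBITRARY real functions on them. If the values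
`f a + α a b + g b` are at least `N ^ ε`, then one of them has no prime within
`κ log N (log₂ N)² log₄ N / (log₃ N)²`. Second part: for `α > 0` the products `α a b` have this
property, without any further condition. The constant `κ` depends on `μ` and `ε` only.

Proof (`Pool.Agent.TH668.Bil`). The inequality of Cauchy and Schwarz removes the functions and the
sets: the bilinear sum of `e(h (f a + α a b + g b) / q)` is bounded by the sum over `d ≤ N` of the
geometric sums with ratio `e(h α d / q)`; in blocks of length `N ^ (1/μ)` the points `h α d / q` are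
well spaced modulo one. The covering sieve of the starting library, in the form
`Pool.Agent.TH915.PW.crit_scaled` (helper915), does the rest.
-/

namespace Pool.Agent.Results.MP_45ff98_nt.ProductsOfArbitrarySets

/-- `L(x) = log x (log log x)^2 log log log log x / (log log log x)^2`. -/
noncomputable def L (x : ℝ) : ℝ :=
  Real.log x * (Real.log (Real.log x)) ^ 2 * Real.log (Real.log (Real.log (Real.log x))) /
    (Real.log (Real.log (Real.log x))) ^ 2

theorem result (μ ε : ℝ) (hμ : 1 ≤ μ) (hε : 0 < ε) :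
    (∃ κ : ℝ, 0 < κ ∧ ∀ c : ℝ, 0 < c → ∃ N₀ : ℕ, ∀ N : ℕ, N₀ ≤ N → ∀ α : ℝ,
      (∀ q : ℕ, 1 ≤ q → ∀ p : ℤ, c * (q : ℝ) ^ (-μ) ≤ |(q : ℝ) * α - p|) →
      ∀ A B : Finset ℕ, (∀ a ∈ A, a ≤ N) → (∀ b ∈ B, b ≤ N) →
      (N : ℝ) ^ (2 - 1 / μ + ε) ≤ A.card * B.card →
      ∀ f g : ℕ → ℝ, (∀ a ∈ A, ∀ b ∈ B, (N : ℝ) ^ ε ≤ f a + α * a * b + g b) →
      ∃ a ∈ A, ∃ b ∈ B, ∀ q : ℕ, q.Prime → κ * L N < |(q : ℝ) - (f a + α * a * b + g b)|) ∧
    (∃ κ : ℝ, 0 < κ ∧ ∀ c α : ℝ, 0 < c → 0 < α →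
      (∀ q : ℕ, 1 ≤ q → ∀ p : ℤ, c * (q : ℝ) ^ (-μ) ≤ |(q : ℝ) * α - p|) →
      ∃ N₀ : ℕ, ∀ N : ℕ, N₀ ≤ N →
      ∀ A B : Finset ℕ, (∀ a ∈ A, a ≤ N) → (∀ b ∈ B, b ≤ N) →
      (N : ℝ) ^ (2 - 1 / μ + ε) ≤ A.card * B.card →
      ∃ a ∈ A, ∃ b ∈ B, ∀ q : ℕ, q.Prime → κ * L N < |(q : ℝ) - α * a * b|) :=
  ⟨Pool.Agent.TH668.Bil.products μ ε hμ hε, Pool.Agent.TH668.Bil.products_plain μ ε hμ hε⟩

end Pool.Agent.Results.MP_45ff98_nt.ProductsOfArbitrarySets
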