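import Pool.Agent.TH668.Met.Leb

set_option autoImplicit false

/-!
# Almost every dilate of every sequence meets record prime gaps

Let `a` be a real sequence with `a (n + 1) - a n ≥ n ^ (ρ - 1)` for all large `n` (for instance a
strictly increasing sequence of integers, `ρ = 1`, of any rate of growth, or `n ^ ρ`) and `b` ANY
real sequence. For almost every real number `α` the numbers `α a n + b n` have the following
property, provided only that they are at least `n ^ ε` for all large `n`: for all large `M` there is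
an `n` in `(M, 4M]` such that no prime lies within `κ log M (log₂ M)² log₄ M / (log₃ M)²` of
`α a n + b n`. The constant `κ` depends on `ρ` and `ε` only. The same holds almost everywhere with
respect to every finite Borel measure whose Fourier transform is `O(|ξ| ^ (-τ))`, `τ > 0`; `κ` then
depends on `τ` as well.

Proof (`Pool.Agent.TH668.Met`). The mean square over `α` of the sum of `e(h (α a n + b n) / q)` over
a dyadic block is the double sum of values of the Fourier transform at `h (a n - a m) / q`, up to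
unimodular factors. So almost surely all these sums with `q ≤ N ^ η`, `h ≤ N ^ (4 η)` are at most
`N ^ (1 - 4 η)`, for all large dyadic `N`. The covering sieve of the starting library, in the form
`Pool.Agent.TH915.PW.crit_scaled` (helper915), does the rest.
-/

open MeasureTheory Filter

namespace Pool.Agent.Results.MP_45ff98_nt.RandomDilates

/-- `L(x) = log x (log log x)^2 log log log log x / (log log log x)^2`. -/
noncomputable def L (x : ℝ) : ℝ :=
  Real.log x * (Real.log (Real.log x)) ^ 2 * Real.log (Real.log (Real.log (Real.log x))) /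
    (Real.log (Real.log (Real.log x))) ^ 2

/-- for all large `M` one of the numbers `x n`, `M < n ≤ 4 M`, is at distance greater than
`κ L(M)` from all primes -/
def MeetsRecordGaps (κ : ℝ) (x : ℕ → ℝ) : Prop :=
  ∀ᶠ M : ℝ in atTop, ∃ n : ℕ, M < n ∧ (n : ℝ) ≤ 4 * M ∧
    ∀ q : ℕ, q.Prime → κ * L M < |(q : ℝ) - x n|

/-- First part: measures `μ` with a Fourier transform that decays like a power. Second part:
Lebesgue measure. -/
theorem result :
    (∀ τ ρ ε : ℝ, 0 < τ → 0 < ρ → ρ ≤ 1 → 0 < ε → ∃ κ : ℝ, 0 < κ ∧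
      ∀ (μ : Measure ℝ) [IsFiniteMeasure μ] (C : ℝ),
        (∀ ξ : ℝ, 1 ≤ |ξ| →
          ‖∫ x : ℝ, Complex.exp (2 * Real.pi * (ξ * x) * Complex.I) ∂μ‖ ≤ C * |ξ| ^ (-τ)) →
        ∀ a b : ℕ → ℝ, (∀ᶠ n : ℕ in atTop, (n : ℝ) ^ (ρ - 1) ≤ a (n + 1) - a n) →
        ∀ᵐ α ∂μ, (∀ᶠ n : ℕ in atTop, (n : ℝ) ^ ε ≤ α * a n + b n) →
          MeetsRecordGaps κ (fun n => α * a n + b n)) ∧
    (∀ ρ ε : ℝ, 0 < ρ → ρ ≤ 1 → 0 < ε → ∃ κ : ℝ, 0 < κ ∧
      ∀ a b : ℕ → ℝ, (∀ᶠ n : ℕ in atTop, (n : ℝ) ^ (ρ - 1) ≤ a (n + 1) - a n) →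
        ∀ᵐ α : ℝ, (∀ᶠ n : ℕ in atTop, (n : ℝ) ^ ε ≤ α * a n + b n) →
          MeetsRecordGaps κ (fun n => α * a n + b n)) := by
  constructor
  · intro τ ρ ε hτ hρ hρ1 hε
    obtain ⟨κ, hκ, h⟩ := Pool.Agent.TH668.Met.metric τ ρ ε hτ hρ hρ1 hε
    refine ⟨κ, hκ, ?_⟩
    intro μ _ C hμ a b ha
    exact h μ C (fun ξ hξ => by
      simp_rw [Pool.Agent.TH668.Met.e_eq]
      exact hμ ξ hξ) a b ha
  · intro ρ ε hρ hρ1 hε
    obtain ⟨κ, hκ, h⟩ := Pool.Agent.TH668.Met.metric_leb ρ ε hρ hρ1 hε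
    exact ⟨κ, hκ, fun a b ha => h a b ha⟩

end Pool.Agent.Results.MP_45ff98_nt.RandomDilates
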