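import Pool.Agent.TH668.Bil.SumMain

set_option autoImplicit false

/-!
# Powers of the elements of sumsets meet record prime gaps

Let `c > 0` be a real number that is not an integer. There are `κ, δ > 0` such that for all large `N`,
all `α` between `N ^ (-δ)` and `N ^ δ`, ARBITRARY sets `A`, `B` of integers in `(N, 2N]` with
`|A| |B| ≥ N ^ (2 - δ)` and ARBITRARY real functions `f`, `g` on them: if all values
`f a + α (a + b) ^ c + g b` are at least `N ^ δ`, then one of them has no prime within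
`κ log N (log₂ N)² log₄ N / (log₃ N)²`. Second part: so the sumset `A + B` contains an integer `s`
such that no prime lies that close to `α s ^ c`.

Proof (`Pool.Agent.TH668.Bil`). After the inequality of Cauchy and Schwarz the sum over all `a` in
`(N, 2N]` of `e(h α ((a + b) ^ c - (a + b') ^ c) / q)` is estimated by `⌊c⌋` differencing steps and
the inequality of Kusmin and Landau, for `b`, `b'` that are not too close (`Pool.Agent.TH668.Sm`,
after helper915). The covering sieve of the starting library, in the form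
`Pool.Agent.TH915.PW.crit_scaled` (helper915), does the rest.
-/

namespace Pool.Agent.Results.MP_45ff98_nt.SumsetsInRecordGaps

/-- `L(x) = log x (log log x)^2 log log log log x / (log log log x)^2`. -/
noncomputable def L (x : ℝ) : ℝ :=
  Real.log x * (Real.log (Real.log x)) ^ 2 * Real.log (Real.log (Real.log (Real.log x))) /
    (Real.log (Real.log (Real.log x))) ^ 2

theorem result (c : ℝ) (hc : 0 < c) (hcn : ∀ m : ℕ, c ≠ m) :
    ∃ κ : ℝ, 0 < κ ∧ ∃ δ : ℝ, 0 < δ ∧ ∃ N₀ : ℕ, ∀ N : ℕ, N₀ ≤ N → ∀ α : ℝ,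
      (N : ℝ) ^ (-δ) ≤ α → α ≤ (N : ℝ) ^ δ → ∀ A B : Finset ℕ,
      (∀ a ∈ A, N < a ∧ a ≤ 2 * N) → (∀ b ∈ B, N < b ∧ b ≤ 2 * N) →
      (N : ℝ) ^ (2 - δ) ≤ A.card * B.card →
      (∀ f g : ℕ → ℝ, (∀ a ∈ A, ∀ b ∈ B, (N : ℝ) ^ δ ≤ f a + α * ((a : ℝ) + b) ^ c + g b) →
        ∃ a ∈ A, ∃ b ∈ B, ∀ q : ℕ, q.Prime →
          κ * L N < |(q : ℝ) - (f a + α * ((a : ℝ) + b) ^ c + g b)|) ∧
      (∃ a ∈ A, ∃ b ∈ B, ∀ q : ℕ, q.Prime → κ * L N < |(q : ℝ) - α * ((a : ℝ) + b) ^ c|) := by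
  obtain ⟨κ, hκ, δ, hδ, hδc, N₀, h⟩ := Pool.Agent.TH668.Bil.sumsets c hc hcn
  refine ⟨κ, hκ, δ, hδ, max N₀ 1, fun N hN α hα1 hα2 A B hA hB hAB => ?_⟩
  have hN₀ : N₀ ≤ N := (le_max_left _ _).trans hN
  have hN1 : 1 ≤ N := (le_max_right _ _).trans hN
  have hNr : (1 : ℝ) ≤ N := by exact_mod_cast hN1
  have hN0 : (0 : ℝ) < N := by linarith
  have h1 := h N hN₀ α hα1 hα2 A B hA hB hAB
  refine ⟨fun f g hpos => h1 f g hpos, ?_⟩
  obtain ⟨a, ha, b, hb, hq⟩ := h1 (fun _ => 0) (fun _ => 0) (by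
    intro a ha b hb
    have ha1 : (N : ℝ) ≤ a := by exact_mod_cast (hA a ha).1.le
    have hb0 : (0 : ℝ) ≤ b := Nat.cast_nonneg b
    calc (N : ℝ) ^ δ ≤ (N : ℝ) ^ (-δ + c) :=
          Real.rpow_le_rpow_of_exponent_le hNr (by linarith)
      _ = (N : ℝ) ^ (-δ) * (N : ℝ) ^ c := Real.rpow_add hN0 _ _
      _ ≤ α * ((a : ℝ) + b) ^ c := by
          have : (N : ℝ) ^ c ≤ ((a : ℝ) + b) ^ c :=
            Real.rpow_le_rpow hN0.le (by linarith) hc.le
          have hα0 : 0 < α := lt_of_lt_of_le (by positivity) hα1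
          gcongr
      _ = 0 + α * ((a : ℝ) + b) ^ c + 0 := by ring)
  refine ⟨a, ha, b, hb, fun q hqp => ?_⟩
  have h2 := hq q hqp
  simp only [zero_add, add_zero] at h2
  exact h2

end Pool.Agent.Results.MP_45ff98_nt.SumsetsInRecordGaps
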