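import Pool.Agent.TH668.Weyl.Crit

set_option autoImplicit false

/-!
# Small Weyl sums force values into record prime gaps, with a frequency

Let `ε > 0`. There is a constant `κ > 0` such that for all large `M` and EVERY finite nonempty family
of real numbers `x i`, `i ∈ s`, at least `M ^ ε`, whose Weyl sums `∑ e(h x i / q)`, for all
`1 ≤ q, h ≤ M ^ ε`, have absolute value at most `|s| M ^ (-ε)`: at least `|s| M ^ (-ε)` of the `x i` have
no prime within `κ log M (log₂ M)² log₄ M / (log₃ M)²`. There is no condition on the size of the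
family, nor an upper bound for the `x i`.

Proof (`Pool.Agent.TH668.Weyl.Crit`). The covering sieve of the starting library, in the form
`Pool.Agent.TH915.PW.crit_scaled` (helper915), finds one such `x i`. If there were fewer than
`|s| M ^ (-ε)`, the family without them would still have small Weyl sums for smaller `q`, `h`, and the
criterion would find a further one.
-/

namespace Pool.Agent.Results.MP_45ff98_nt.WeylCriterionWithFrequency

/-- `L(x) = log x (log log x)^2 log log log log x / (log log log x)^2`. -/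
noncomputable def L (x : ℝ) : ℝ :=
  Real.log x * (Real.log (Real.log x)) ^ 2 * Real.log (Real.log (Real.log (Real.log x))) /
    (Real.log (Real.log (Real.log x))) ^ 2

open Classical in
theorem result (ε : ℝ) (hε : 0 < ε) : ∃ κ : ℝ, 0 < κ ∧ ∃ M₀ : ℝ, ∀ M : ℝ, M₀ ≤ M →
    ∀ (ι : Type) (s : Finset ι) (x : ι → ℝ), s.Nonempty → (∀ i ∈ s, M ^ ε ≤ x i) →
    (∀ q h : ℕ, 1 ≤ q → (q : ℝ) ≤ M ^ ε → 1 ≤ h → (h : ℝ) ≤ M ^ ε →
      ‖∑ i ∈ s, Complex.exp (2 * Real.pi * ((h : ℝ) / q * x i) * Complex.I)‖ ≤
        s.card * M ^ (-ε)) →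
    (s.card : ℝ) * M ^ (-ε) ≤
      (s.filter fun i => ∀ q : ℕ, q.Prime → κ * L M < |(q : ℝ) - x i|).card := by
  obtain ⟨κ, hκ, M₀, h⟩ := Pool.Agent.TH668.Weyl.freq ε hε
  refine ⟨κ, hκ, M₀, fun M hM ι s x hs hx hE => ?_⟩
  refine h M hM ι s x hs hx fun q h' hq hqM hh hhM => ?_
  have e1 : ∀ y : ℝ, Pool.Agent.H469R2.NK.e y =
      Complex.exp (2 * Real.pi * (y : ℂ) * Complex.I) := by
    intro y
    unfold Pool.Agent.H469R2.NK.e
    push_cast
    rfl
  simp_rw [e1]
  push_cast
  have h2 := hE q h' hq hqM hh hhM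
  push_cast at h2
  exact h2

end Pool.Agent.Results.MP_45ff98_nt.WeylCriterionWithFrequency
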